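import Pool.Agent.Helper8_HK.Stmt0
import Pool.Agent.Helper8_HK.Stmt3

/-!
# HK part 2, module IMM: Moebius transformations of the upper half plane
-/

set_option autoImplicit false

namespace Pool.Agent.HK.H18

open Polynomial Filter Pool.Agent.HK

section

variable {F : Type} [Field F] [Fintype F] {C : Type} [NormedField C]
  [IsAlgClosed C] [CompleteSpace C] [IsUltrametricDist C] {ι : Kinf F →+* C}

omit [Fintype F] [IsAlgClosed C] [CompleteSpace C] [IsUltrametricDist C] in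
theorem den_ne (a b c d : Kinf F) (hD : a * d - b * c ≠ 0) {z : C} (hz : z ∈ Om ι) :
    ι c * z + ι d ≠ 0 := by
  intro h
  by_cases hc : c = 0
  · subst hc
    rw [map_zero, zero_mul, zero_add, map_eq_zero] at h
    apply hD
    rw [h]; ring
  · have hc' : ι c ≠ 0 := (map_ne_zero ι).mpr hc
    apply hz (-d / c)
    rw [map_div₀, map_neg, eq_div_iff hc']
    linear_combination h

omit [Fintype F] [IsAlgClosed C] [CompleteSpace C] [IsUltrametricDist C] in
theorem mob_mem (a b c d : Kinf F) (hD : a * d - b * c ≠ 0) {z : C} (hz : z ∈ Om ι) :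
    (ι a * z + ι b) / (ι c * z + ι d) ∈ Om ι := by
  have h0 := den_ne a b c d hD hz
  intro x hx
  rw [div_eq_iff h0] at hx
  by_cases h1 : a - x * c = 0
  · have h2 : ι (x * d - b) = 0 := by
      have h3 : ι (a - x * c) = 0 := by rw [h1, map_zero]
      rw [map_sub, map_mul] at h3 ⊢
      linear_combination -hx + z * h3
    rw [map_eq_zero] at h2
    apply hD
    linear_combination d * h1 + c * h2
  · have h1' : ι (a - x * c) ≠ 0 := (map_ne_zero ι).mpr h1
    apply hz ((x * d - b) / (a - x * c))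
    rw [map_div₀, eq_div_iff h1', map_sub, map_sub, map_mul, map_mul]
    linear_combination hx

theorem ub (hIMA : IMAStmt) (hι : NormOK ι) (a b c d : Kinf F) (hD : a * d - b * c ≠ 0) {z : C}
    (hz : z ∈ Om ι) :
    imz ι ((ι a * z + ι b) / (ι c * z + ι d)) ≤
      ‖ι (a * d - b * c)‖ * imz ι z / ‖ι c * z + ι d‖ ^ 2 := by
  obtain ⟨-, -, -, -, h5, h6, -⟩ := hIMA F C ι hι
  have h0 := den_ne a b c d hD hz
  have hn0 : 0 < ‖ι c * z + ι d‖ := norm_pos_iff.mpr h0
  obtain ⟨hpos, x, hx⟩ := h6 z hz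
  -- the case of a strict inequality
  by_cases hcx : ‖ι c‖ * imz ι z < ‖ι c * z + ι d‖
  · have e3 : ‖-(ι c * (z - ι x))‖ = ‖ι c‖ * imz ι z := by
      rw [norm_neg, norm_mul, ← hx]
    have e1 : ‖ι c * ι x + ι d‖ = ‖ι c * z + ι d‖ := by
      have e2 : ι c * ι x + ι d = (ι c * z + ι d) + -(ι c * (z - ι x)) := by ring
      rw [e2, IsUltrametricDist.norm_add_eq_max_of_norm_ne_norm (by rw [e3]; exact hcx.ne'), e3]
      exact max_eq_left hcx.le
    have e4 : ι c * ι x + ι d ≠ 0 := by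
      rw [← norm_pos_iff, e1]; exact hn0
    refine ((h5 _).2 ((a * x + b) / (c * x + d))).trans (le_of_eq ?_)
    have e5 : (ι a * z + ι b) / (ι c * z + ι d) - ι ((a * x + b) / (c * x + d)) =
        ι (a * d - b * c) * (z - ι x) / ((ι c * z + ι d) * (ι c * ι x + ι d)) := by
      rw [map_div₀, map_add, map_add, map_mul, map_mul, map_sub, map_mul, map_mul,
        div_sub_div _ _ h0 e4]
      congr 1
      ring
    rw [e5, norm_div, norm_mul, norm_mul, e1, ← hx, sq]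
  · push Not at hcx
    have hc : c ≠ 0 := by
      rintro rfl
      rw [map_zero, norm_zero, zero_mul (imz ι z), norm_le_zero_iff] at hcx
      rw [map_zero] at h0
      exact h0 hcx
    have hc' : ι c ≠ 0 := (map_ne_zero ι).mpr hc
    have hnc : 0 < ‖ι c‖ := norm_pos_iff.mpr hc'
    refine ((h5 _).2 (a / c)).trans ?_
    have e5 : (ι a * z + ι b) / (ι c * z + ι d) - ι (a / c) =
        -ι (a * d - b * c) / (ι c * (ι c * z + ι d)) := by
      rw [map_div₀, map_sub, map_mul, map_mul, div_sub_div _ _ h0 hc']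
      rw [mul_comm (ι c) (ι c * z + ι d)]
      congr 1
      ring
    rw [e5, norm_div, norm_neg, norm_mul, sq, div_le_div_iff₀ (by positivity) (by positivity)]
    have : ‖ι (a * d - b * c)‖ * (‖ι c * z + ι d‖ * ‖ι c * z + ι d‖) ≤
        ‖ι (a * d - b * c)‖ * ((‖ι c‖ * imz ι z) * ‖ι c * z + ι d‖) := by
      gcongr
    calc _ ≤ _ := this
      _ = _ := by ring

theorem imz_mob (hIMA : IMAStmt) (hι : NormOK ι) (a b c d : Kinf F) (hD : a * d - b * c ≠ 0)
    {z : C} (hz : z ∈ Om ι) :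
    imz ι ((ι a * z + ι b) / (ι c * z + ι d)) =
      ‖ι (a * d - b * c)‖ * imz ι z / ‖ι c * z + ι d‖ ^ 2 := by
  refine le_antisymm (ub hIMA hι a b c d hD hz) ?_
  have h0 := den_ne a b c d hD hz
  have hn0 : 0 < ‖ι c * z + ι d‖ := norm_pos_iff.mpr h0
  have hw := mob_mem a b c d hD hz
  set w : C := (ι a * z + ι b) / (ι c * z + ι d) with hwd
  have hD' : d * a - (-b) * (-c) ≠ 0 := by
    intro h; apply hD; rw [← h]; ring
  have h1 := ub hIMA hι d (-b) (-c) a hD' hw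
  have hDn : ι (a * d - b * c) ≠ 0 := (map_ne_zero ι).mpr hD
  have hDp : 0 < ‖ι (a * d - b * c)‖ := norm_pos_iff.mpr hDn
  have e1 : ι (-c) * w + ι a = ι (a * d - b * c) / (ι c * z + ι d) := by
    rw [hwd, map_neg, map_sub, map_mul, map_mul]
    field_simp
    ring
  have e2 : (ι d * w + ι (-b)) / (ι (-c) * w + ι a) = z := by
    have e4 : ι d * w + ι (-b) = z * ι (a * d - b * c) / (ι c * z + ι d) := by
      rw [eq_div_iff h0, add_mul, mul_assoc, hwd, div_mul_cancel₀ _ h0, map_neg, map_sub, map_mul,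
        map_mul]
      ring
    rw [e1, e4, div_div_div_cancel_right₀ h0, mul_div_cancel_right₀ _ hDn]
  have e3 : d * a - (-b) * (-c) = a * d - b * c := by ring
  rw [e2, e1, e3, norm_div] at h1
  rw [div_le_iff₀ (by positivity)]
  have h2 : ‖ι (a * d - b * c)‖ * imz ι w / (‖ι (a * d - b * c)‖ / ‖ι c * z + ι d‖) ^ 2 =
      imz ι w * ‖ι c * z + ι d‖ ^ 2 / ‖ι (a * d - b * c)‖ := by
    field_simp
  rw [h2, le_div_iff₀ hDp] at h1
  linarith

end

/-- module IMM -/
theorem imm (hIMA : IMAStmt) (hMTX : MTXStmt) : IMMStmt := by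
  intro F _ _ C _ _ _ _ ι hι g
  have hD := ((hMTX F).2.1 g).2
  have hIMA' := hIMA F C ι hι
  obtain ⟨-, -, -, -, h5, h6, -, h8, -⟩ := hIMA'
  refine ⟨fun z hz => ⟨den_ne _ _ _ _ hD hz, mob_mem _ _ _ _ hD hz,
    imz_mob hIMA hι _ _ _ _ hD hz⟩, fun N => ?_⟩
  set a := g 0 0
  set b := g 0 1
  set c := g 1 0
  set d := g 1 1
  have hq : (1 : ℝ) < ((Fintype.card F : ℕ) : ℝ) := by
    exact_mod_cast Fintype.one_lt_card (α := F)
  set q : ℝ := ((Fintype.card F : ℕ) : ℝ) with hqd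
  have hqN : 0 < q ^ N := by positivity
  have hDn : ι (a * d - b * c) ≠ 0 := (map_ne_zero ι).mpr hD
  have hDp : 0 < ‖ι (a * d - b * c)‖ := norm_pos_iff.mpr hDn
  -- the lower bound for the denominator
  obtain ⟨c0, hc0, hlow⟩ : ∃ c0 : ℝ, 0 < c0 ∧ ∀ z ∈ OmN ι N, c0 ≤ ‖ι c * z + ι d‖ := by
    by_cases hc : c = 0
    · have hd : d ≠ 0 := by
        intro h; apply hD; rw [hc, h]; ring
      refine ⟨‖ι d‖, norm_pos_iff.mpr ((map_ne_zero ι).mpr hd), fun z _ => ?_⟩
      rw [hc, map_zero, zero_mul, zero_add]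
    · have hc' : ι c ≠ 0 := (map_ne_zero ι).mpr hc
      have hnc : 0 < ‖ι c‖ := norm_pos_iff.mpr hc'
      refine ⟨‖ι c‖ * (q ^ N)⁻¹, by positivity, fun z hz => ?_⟩
      have e1 : ι c * z + ι d = ι c * (z - ι (-d / c)) := by
        rw [map_div₀, map_neg]; field_simp; ring
      rw [e1, norm_mul]
      exact mul_le_mul_of_nonneg_left (hz.2 _) hnc.le
  have hB1 : ∀ z ∈ OmN ι N, ‖mob ι g z‖ ≤ (‖ι a‖ * q ^ N + ‖ι b‖) / c0 := by
    intro z hz
    show ‖(ι a * z + ι b) / (ι c * z + ι d)‖ ≤ _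
    rw [norm_div]
    have e1 : ‖ι a * z + ι b‖ ≤ ‖ι a‖ * q ^ N + ‖ι b‖ := by
      refine (norm_add_le _ _).trans ?_
      rw [norm_mul]
      have := mul_le_mul_of_nonneg_left hz.1 (norm_nonneg (ι a))
      linarith
    exact div_le_div₀ (by positivity) e1 hc0 (hlow z hz)
  have hE1 : ∀ z ∈ OmN ι N, ‖ι (a * d - b * c)‖ * (q ^ N)⁻¹ / (‖ι c‖ * q ^ N + ‖ι d‖) ^ 2
      ≤ imz ι (mob ι g z) := by
    intro z hz
    have hzO := ((h8 N z).mp hz).1
    have hzi := ((h8 N z).mp hz).2.2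
    have e0 : imz ι (mob ι g z) = ‖ι (a * d - b * c)‖ * imz ι z / ‖ι c * z + ι d‖ ^ 2 :=
      imz_mob hIMA hι _ _ _ _ hD hzO
    rw [e0]
    have e1 : ‖ι c * z + ι d‖ ≤ ‖ι c‖ * q ^ N + ‖ι d‖ := by
      refine (norm_add_le _ _).trans ?_
      rw [norm_mul]
      have := mul_le_mul_of_nonneg_left hz.1 (norm_nonneg (ι c))
      linarith
    have e2 : 0 < ‖ι c * z + ι d‖ := hc0.trans_le (hlow z hz)
    exact div_le_div₀ (mul_nonneg hDp.le (h5 z).1) (mul_le_mul_of_nonneg_left hzi hDp.le)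
      (by positivity) (pow_le_pow_left₀ e2.le e1 2)
  set B1 : ℝ := (‖ι a‖ * q ^ N + ‖ι b‖) / c0
  set E1 : ℝ := ‖ι (a * d - b * c)‖ * (q ^ N)⁻¹ / (‖ι c‖ * q ^ N + ‖ι d‖) ^ 2 with hE1d
  have hE1p : 0 < E1 := by
    have : 0 < ‖ι c‖ * q ^ N + ‖ι d‖ := by
      by_contra hcon
      have h1 : ‖ι c‖ * q ^ N = 0 := le_antisymm (by linarith [norm_nonneg (ι d)]) (by positivity)
      have h2 : ‖ι d‖ = 0 := le_antisymm (by
        have : 0 ≤ ‖ι c‖ * q ^ N := by positivity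
        linarith) (norm_nonneg _)
      have h3 : c = 0 := by
        have := (mul_eq_zero.mp h1).resolve_right hqN.ne'
        rwa [norm_eq_zero, map_eq_zero] at this
      have h4 : d = 0 := by
        rwa [norm_eq_zero, map_eq_zero] at h2
      apply hD; rw [h3, h4]; ring
    rw [hE1d]; positivity
  obtain ⟨N1, hN1⟩ := pow_unbounded_of_one_lt (max B1 E1⁻¹) hq
  refine ⟨N1, c0, hc0, fun z hz => ⟨?_, hlow z hz⟩⟩
  rw [h8]
  refine ⟨mob_mem _ _ _ _ hD ((h8 N z).mp hz).1, (hB1 z hz).trans ?_, ?_⟩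
  · exact (le_max_left _ _).trans hN1.le
  · refine le_trans ?_ (hE1 z hz)
    rw [inv_le_comm₀ (by positivity) hE1p]
    exact (le_max_right _ _).trans hN1.le

end Pool.Agent.HK.H18
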