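import Pool.Agent.Helper8_HK.Stmt0
import Pool.Agent.Helper8_HK.Stmt3

/-!
# HK part 2, module SLA: the action on functions
-/

set_option autoImplicit false

namespace Pool.Agent.HK.H18

open Polynomial Filter Pool.Agent.HK

/-- module SLA -/
theorem sla (hIMM : IMMStmt) (hMTX : MTXStmt) : SLAStmt := by
  intro F _ _ C _ _ _ _ ι hι
  have hI := hIMM F C ι hι
  obtain ⟨hM1, hM2, -⟩ := hMTX F
  have hA : ∀ (g : GLK F) (z : C), z ∉ Om ι → mob ι g z ∉ Om ι := by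
    intro g z hz hm
    have hz' : ∃ x : Kinf F, z = ι x := by
      by_contra hc
      push Not at hc
      exact hz hc
    obtain ⟨x, rfl⟩ := hz'
    apply hm ((g 0 0 * x + g 0 1) / (g 1 0 * x + g 1 1))
    show (ι (g 0 0) * ι x + ι (g 0 1)) / (ι (g 1 0) * ι x + ι (g 1 1)) = _
    rw [map_div₀, map_add, map_add, map_mul, map_mul]
  refine ⟨hA, fun f hf => ?_⟩
  have hOff : ∀ g : GLK F, Off ι (slash ι g f) := by
    intro g z hz
    show ι (g 0 0 * g 1 1 - g 0 1 * g 1 0) * ((ι (g 1 0) * z + ι (g 1 1)) ^ 2)⁻¹ *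
      f (mob ι g z) = 0
    rw [hf _ (hA g z hz), mul_zero]
  have hnorm : ∀ (g : GLK F) (z : C), z ∈ Om ι →
      ‖slash ι g f z‖ * imz ι z = ‖f (mob ι g z)‖ * imz ι (mob ι g z) := by
    intro g z hz
    obtain ⟨h1, h2, h3⟩ := (hI g).1 z hz
    rw [h3]
    show ‖ι (g 0 0 * g 1 1 - g 0 1 * g 1 0) * ((ι (g 1 0) * z + ι (g 1 1)) ^ 2)⁻¹ *
      f (mob ι g z)‖ * imz ι z = _
    rw [norm_mul, norm_mul, norm_inv, norm_pow]
    ring
  refine ⟨hOff, fun g h => ?_, ?_, fun w hw => ?_, hnorm, fun B g hB z hz => ?_⟩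
  · funext z
    by_cases hz : z ∈ Om ι
    · obtain ⟨h1, h2, -⟩ := (hI h).1 z hz
      obtain ⟨h3, h4, -⟩ := (hI g).1 _ h2
      have e : ∀ i j : Fin 2, (g * h) i j = g i 0 * h 0 j + g i 1 * h 1 j := by
        intro i j
        rw [Matrix.GeneralLinearGroup.coe_mul, Matrix.mul_apply, Fin.sum_univ_two]
      set w : C := mob ι h z with hw
      have hw' : w = (ι (h 0 0) * z + ι (h 0 1)) / (ι (h 1 0) * z + ι (h 1 1)) := rfl
      have e1 : ι ((g * h) 1 0) * z + ι ((g * h) 1 1) =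
          (ι (g 1 0) * w + ι (g 1 1)) * (ι (h 1 0) * z + ι (h 1 1)) := by
        rw [e, e, hw', add_mul (_ * _), mul_assoc (ι (g 1 0)), div_mul_cancel₀ _ h1, map_add, map_add,
          map_mul, map_mul, map_mul, map_mul]
        ring
      have e2 : ι ((g * h) 0 0) * z + ι ((g * h) 0 1) =
          (ι (g 0 0) * w + ι (g 0 1)) * (ι (h 1 0) * z + ι (h 1 1)) := by
        rw [e, e, hw', add_mul (_ * _), mul_assoc (ι (g 0 0)), div_mul_cancel₀ _ h1, map_add, map_add,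
          map_mul, map_mul, map_mul, map_mul]
        ring
      have e3 : (g * h) 0 0 * (g * h) 1 1 - (g * h) 0 1 * (g * h) 1 0 =
          (g 0 0 * g 1 1 - g 0 1 * g 1 0) * (h 0 0 * h 1 1 - h 0 1 * h 1 0) := by
        rw [e, e, e, e]; ring
      show ι ((g * h) 0 0 * (g * h) 1 1 - (g * h) 0 1 * (g * h) 1 0) *
          ((ι ((g * h) 1 0) * z + ι ((g * h) 1 1)) ^ 2)⁻¹ *
          f ((ι ((g * h) 0 0) * z + ι ((g * h) 0 1)) / (ι ((g * h) 1 0) * z + ι ((g * h) 1 1))) =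
        ι (h 0 0 * h 1 1 - h 0 1 * h 1 0) * ((ι (h 1 0) * z + ι (h 1 1)) ^ 2)⁻¹ *
          (ι (g 0 0 * g 1 1 - g 0 1 * g 1 0) * ((ι (g 1 0) * w + ι (g 1 1)) ^ 2)⁻¹ *
            f ((ι (g 0 0) * w + ι (g 0 1)) / (ι (g 1 0) * w + ι (g 1 1))))
      rw [e1, e2, e3, mul_div_mul_right _ _ h1, map_mul, mul_pow, mul_inv]
      ring
    · rw [hOff _ z hz]
      show 0 = ι (h 0 0 * h 1 1 - h 0 1 * h 1 0) * ((ι (h 1 0) * z + ι (h 1 1)) ^ 2)⁻¹ *
        slash ι g f (mob ι h z)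
      rw [hOff g _ (hA h z hz), mul_zero]
  · funext z
    simp [slash]
  · obtain ⟨a1, a2, a3, a4⟩ := hM1 w 0 0 w (by simpa using hw)
    funext z
    have hw' : ι w ≠ 0 := (map_ne_zero ι).mpr hw
    unfold slash scal
    rw [a1, a2, a3, a4, map_zero, zero_mul (0 : Kinf F), zero_mul z, zero_add (ι w), add_zero,
      mul_div_cancel_left₀ _ hw', sub_zero, map_mul, sq, mul_inv_cancel₀ (mul_ne_zero hw' hw'),
      one_mul]
  · rw [hnorm g z hz]
    exact hB _ ((hI g).1 z hz).2.1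

end Pool.Agent.HK.H18
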